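import Mathlib

/-!
# Powers and components of partial injections
-/

namespace Pool.Agent.Q302.CC

universe u

variable {X : Type u}

/-- `pw α n x y` says that `y` is the image of `x` under the `n`-th power of the partial injection
`α`. -/
def pw (α : X ≃. X) : ℕ → X → X → Prop
  | 0, x, y => x = y
  | n + 1, x, y => ∃ z, pw α n x z ∧ y ∈ α z

/-- The component of `x`: the points which are connected with `x` by the arrows of `α`. -/
def cl (α : X ≃. X) (x : X) : Set X := {y | ∃ n, pw α n x y ∨ pw α n y x}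

variable {α β : X ≃. X}

lemma pw_uniq {n : ℕ} {x y y' : X} (h : pw α n x y) (h' : pw α n x y') : y = y' := by
  induction n generalizing y y' with
  | zero => exact h.symm.trans h'
  | succ n ih =>
    obtain ⟨z, h1, h2⟩ := h
    obtain ⟨z', h1', h2'⟩ := h'
    obtain rfl := ih h1 h1'
    exact Option.mem_unique h2 h2'

lemma pw_inj {n : ℕ} {x x' y : X} (h : pw α n x y) (h' : pw α n x' y) : x = x' := by
  induction n generalizing y with
  | zero => exact h.trans h'.symm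
  | succ n ih =>
    obtain ⟨z, h1, h2⟩ := h
    obtain ⟨z', h1', h2'⟩ := h'
    obtain rfl := α.inj h2 h2'
    exact ih h1 h1'

lemma pw_add {m n : ℕ} {x y : X} : pw α (m + n) x y ↔ ∃ z, pw α m x z ∧ pw α n z y := by
  induction n generalizing y with
  | zero =>
    constructor
    · intro h; exact ⟨y, h, rfl⟩
    · rintro ⟨z, h, rfl⟩; exact h
  | succ n ih =>
    constructor
    · rintro ⟨w, h1, h2⟩
      obtain ⟨z, h3, h4⟩ := ih.1 h1
      exact ⟨z, h3, w, h4, h2⟩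
    · rintro ⟨z, h3, w, h4, h2⟩
      exact ⟨w, ih.2 ⟨z, h3, h4⟩, h2⟩

lemma pw_one {x y : X} : pw α 1 x y ↔ y ∈ α x := by
  constructor
  · rintro ⟨z, h, h'⟩
    obtain rfl : x = z := h
    exact h'
  · intro h; exact ⟨x, rfl, h⟩

lemma pw_succ' {n : ℕ} {x y : X} : pw α (n + 1) x y ↔ ∃ z, z ∈ α x ∧ pw α n z y := by
  rw [Nat.add_comm, pw_add]
  simp only [pw_one]

lemma pw_sub_left {m n : ℕ} {x y z : X} (h : pw α m x y) (h' : pw α n x z) (hmn : m ≤ n) :
    pw α (n - m) y z := by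
  obtain ⟨k, rfl⟩ := Nat.exists_eq_add_of_le hmn
  obtain ⟨w, h1, h2⟩ := pw_add.1 h'
  obtain rfl := pw_uniq h h1
  simpa using h2

lemma pw_sub_right {m n : ℕ} {x y z : X} (h : pw α m y x) (h' : pw α n z x) (hmn : m ≤ n) :
    pw α (n - m) z y := by
  obtain ⟨k, rfl⟩ := Nat.exists_eq_add_of_le hmn
  rw [Nat.add_comm m k] at h'
  obtain ⟨w, h1, h2⟩ := pw_add.1 h'
  obtain rfl := pw_inj h h2
  simpa using h1

lemma mem_cl_self (x : X) : x ∈ cl α x := ⟨0, Or.inl rfl⟩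

lemma cl_symm {x y : X} (h : y ∈ cl α x) : x ∈ cl α y := by
  obtain ⟨n, h | h⟩ := h
  · exact ⟨n, Or.inr h⟩
  · exact ⟨n, Or.inl h⟩

lemma cl_trans {x y z : X} (h : y ∈ cl α x) (h' : z ∈ cl α y) : z ∈ cl α x := by
  obtain ⟨n, h | h⟩ := h <;> obtain ⟨m, h' | h'⟩ := h'
  · exact ⟨n + m, Or.inl (pw_add.2 ⟨y, h, h'⟩)⟩
  · rcases le_total n m with hle | hle
    · exact ⟨m - n, Or.inr (pw_sub_right h h' hle)⟩
    · exact ⟨n - m, Or.inl (pw_sub_right h' h hle)⟩
  · rcases le_total n m with hle | hle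
    · exact ⟨m - n, Or.inl (pw_sub_left h h' hle)⟩
    · exact ⟨n - m, Or.inr (pw_sub_left h' h hle)⟩
  · exact ⟨m + n, Or.inr (pw_add.2 ⟨y, h', h⟩)⟩

lemma cl_eq {x y : X} (h : y ∈ cl α x) : cl α y = cl α x := by
  ext z
  exact ⟨fun hz => cl_trans h hz, fun hz => cl_trans (cl_symm h) hz⟩

lemma cl_eq_iff {x y : X} : cl α y = cl α x ↔ y ∈ cl α x :=
  ⟨fun h => h ▸ mem_cl_self y, cl_eq⟩

/-- Periodicity is inherited along a component. -/
lemma per_cl {n : ℕ} {x y : X} (h : y ∈ cl α x) (hx : pw α n x x) : pw α n y y := by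
  obtain ⟨m, h | h⟩ := h
  · have h1 : pw α (n + m) x y := pw_add.2 ⟨x, hx, h⟩
    have h2 := pw_sub_left h h1 (Nat.le_add_left m n)
    simpa using h2
  · have h1 : pw α (m + n) y x := pw_add.2 ⟨x, h, hx⟩
    have h2 := pw_sub_right h h1 (Nat.le_add_right m n)
    simpa using h2

lemma pw_mul {p k : ℕ} {x : X} (h : pw α p x x) : pw α (p * k) x x := by
  induction k with
  | zero => exact rfl
  | succ k ih => rw [Nat.mul_succ]; exact pw_add.2 ⟨x, ih, h⟩

lemma pw_dvd {p n : ℕ} {x : X} (h : pw α p x x)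
    (hmin : ∀ m, 0 < m → m < p → ¬ pw α m x x) (hp : 0 < p) : pw α n x x ↔ p ∣ n := by
  constructor
  · intro hn
    have h1 : pw α (p * (n / p)) x x := pw_mul h
    have h2 := pw_sub_left h1 hn (Nat.mul_div_le n p)
    have h3 : n - p * (n / p) = n % p := by
      have := Nat.div_add_mod n p
      omega
    rw [h3] at h2
    by_contra hnd
    exact hmin _ (Nat.pos_of_ne_zero fun h0 => hnd (Nat.dvd_of_mod_eq_zero h0))
      (Nat.mod_lt _ hp) h2
  · rintro ⟨k, rfl⟩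
    exact pw_mul h

/-- `γ` is an embedding of `α` into `β`. -/
structure IsEmb (α β g : X ≃. X) : Prop where
  dom : ∀ x y, y ∈ α x → ∃ w, w ∈ g y
  comm : α.trans g = g.trans β

/-- A family of pairs of base points. -/
structure Fam (α β : X ≃. X) (Pr : X → X → Prop) : Prop where
  cover : ∀ z, (∃ y, y ∈ α z) ∨ (∃ y, z ∈ α y) → ∃ x y, Pr x y ∧ z ∈ cl α x
  sepL : ∀ x y x' y', Pr x y → Pr x' y' → x' ∈ cl α x → x = x' ∧ y = y'
  sepR : ∀ x y x' y', Pr x y → Pr x' y' → y' ∈ cl β y → x = x' ∧ y = y'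
  fw : ∀ x y, Pr x y → ∀ n, (∃ z, pw α n x z) ↔ ∃ w, pw β n y w
  bw : ∀ x y, Pr x y → ∀ n, (∃ z, pw α n z x) → ∃ w, pw β n w y
  cyc : ∀ x y, Pr x y → ∀ n, pw α n x x ↔ pw β n y y

/-- corresponding points of the components of `x` and `y` -/
def Gp (α β : X ≃. X) (x y z w : X) : Prop :=
  ∃ n, (pw α n x z ∧ pw β n y w) ∨ (pw α n z x ∧ pw β n w y)

lemma Gp.symm {x y z w : X} (h : Gp α β x y z w) : Gp β α y x w z := by
  obtain ⟨n, h | h⟩ := h
  · exact ⟨n, Or.inl h.symm⟩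
  · exact ⟨n, Or.inr h.symm⟩

lemma Gp.uniq {x y z w w' : X} (hc : ∀ n, pw α n x x → pw β n y y) (h : Gp α β x y z w)
    (h' : Gp α β x y z w') : w = w' := by
  obtain ⟨n, ⟨h1, h2⟩ | ⟨h1, h2⟩⟩ := h <;> obtain ⟨m, ⟨h1', h2'⟩ | ⟨h1', h2'⟩⟩ := h'
  · -- z = x α^n = x α^m
    rcases le_total n m with hle | hle
    · have h3 : pw α (m - n) x x := pw_sub_right h1 h1' hle
      have h4 := hc _ h3
      have h5 : pw β (m - n + n) y w := pw_add.2 ⟨y, h4, h2⟩
      rw [Nat.sub_add_cancel hle] at h5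
      exact pw_uniq h5 h2'
    · have h3 : pw α (n - m) x x := pw_sub_right h1' h1 hle
      have h4 := hc _ h3
      have h5 : pw β (n - m + m) y w' := pw_add.2 ⟨y, h4, h2'⟩
      rw [Nat.sub_add_cancel hle] at h5
      exact pw_uniq h2 h5
  · -- z = x α^n, x = z α^m
    have h3 : pw α (n + m) x x := pw_add.2 ⟨z, h1, h1'⟩
    have h4 := hc _ h3
    obtain ⟨v, h5, h6⟩ := pw_add.1 h4
    obtain rfl := pw_uniq h2 h5
    exact pw_inj h6 h2'
  · have h3 : pw α (m + n) x x := pw_add.2 ⟨z, h1', h1⟩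
    have h4 := hc _ h3
    obtain ⟨v, h5, h6⟩ := pw_add.1 h4
    obtain rfl := pw_uniq h2' h5
    exact pw_inj h2 h6
  · rcases le_total n m with hle | hle
    · have h3 : pw α (m - n) x x := pw_sub_left h1 h1' hle
      have h4 := hc _ h3
      have h5 : pw β (n + (m - n)) w y := pw_add.2 ⟨y, h2, h4⟩
      rw [Nat.add_sub_cancel' hle] at h5
      exact pw_inj h5 h2'
    · have h3 : pw α (n - m) x x := pw_sub_left h1' h1 hle
      have h4 := hc _ h3
      have h5 : pw β (m + (n - m)) w' y := pw_add.2 ⟨y, h2', h4⟩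
      rw [Nat.add_sub_cancel' hle] at h5
      exact pw_inj h2 h5

lemma Gp.mem_cl {x y z w : X} (h : Gp α β x y z w) : z ∈ cl α x := by
  obtain ⟨n, ⟨h1, -⟩ | ⟨h1, -⟩⟩ := h
  · exact ⟨n, Or.inl h1⟩
  · exact ⟨n, Or.inr h1⟩

/-- A family of pairs of base points gives an embedding. -/
theorem Fam.emb {Pr : X → X → Prop} (h : Fam α β Pr) : ∃ g, IsEmb α β g := by
  classical
  let G : X → X → Prop := fun z w => ∃ x y, Pr x y ∧ Gp α β x y z w
  have hu : ∀ z w w', G z w → G z w' → w = w' := by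
    rintro z w w' ⟨x, y, hP, hG⟩ ⟨x', y', hP', hG'⟩
    have hcl : x' ∈ cl α x := cl_trans hG.mem_cl (cl_symm hG'.mem_cl)
    obtain ⟨rfl, rfl⟩ := h.sepL x y x' y' hP hP' hcl
    exact hG.uniq (fun n => (h.cyc x y hP n).1) hG'
  have hi : ∀ z z' w, G z w → G z' w → z = z' := by
    rintro z z' w ⟨x, y, hP, hG⟩ ⟨x', y', hP', hG'⟩
    have hcl : y' ∈ cl β y := cl_trans hG.symm.mem_cl (cl_symm hG'.symm.mem_cl)
    obtain ⟨rfl, rfl⟩ := h.sepR x y x' y' hP hP' hcl
    exact hG.symm.uniq (fun n => (h.cyc x y hP n).2) hG'.symm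
  have hex : ∀ z, (∃ y, y ∈ α z) ∨ (∃ y, z ∈ α y) → ∃ w, G z w := by
    intro z hz
    obtain ⟨x, y, hP, n, hn | hn⟩ := h.cover z hz
    · obtain ⟨w, hw⟩ := (h.fw x y hP n).1 ⟨z, hn⟩
      exact ⟨w, x, y, hP, n, Or.inl ⟨hn, hw⟩⟩
    · obtain ⟨w, hw⟩ := h.bw x y hP n ⟨z, hn⟩
      exact ⟨w, x, y, hP, n, Or.inr ⟨hn, hw⟩⟩
  have hstep : ∀ z w z', G z w → z' ∈ α z → ∃ w', w' ∈ β w ∧ G z' w' := by
    rintro z w z' ⟨x, y, hP, n, ⟨h1, h2⟩ | ⟨h1, h2⟩⟩ hz'
    · obtain ⟨w', v, h3, h4⟩ := (h.fw x y hP (n + 1)).1 ⟨z', z, h1, hz'⟩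
      obtain rfl := pw_uniq h2 h3
      exact ⟨w', h4, x, y, hP, n + 1, Or.inl ⟨⟨z, h1, hz'⟩, ⟨w, h2, h4⟩⟩⟩
    · cases n with
      | zero =>
        obtain rfl : z = x := h1
        obtain rfl : w = y := h2
        obtain ⟨w', hw'⟩ := (h.fw z w hP 1).1 ⟨z', pw_one.2 hz'⟩
        exact ⟨w', pw_one.1 hw', z, w, hP, 1, Or.inl ⟨pw_one.2 hz', hw'⟩⟩
      | succ m =>
        obtain ⟨v, h3, h4⟩ := pw_succ'.1 h1
        obtain rfl := Option.mem_unique hz' h3
        obtain ⟨w', h5, h6⟩ := pw_succ'.1 h2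
        exact ⟨w', h5, x, y, hP, m, Or.inr ⟨h4, h6⟩⟩
  have hend : ∀ z w w', G z w → w' ∈ β w → ∃ z', z' ∈ α z := by
    rintro z w w' ⟨x, y, hP, n, ⟨h1, h2⟩ | ⟨h1, h2⟩⟩ hw'
    · obtain ⟨z', v, h3, h4⟩ := (h.fw x y hP (n + 1)).2 ⟨w', w, h2, hw'⟩
      obtain rfl := pw_uniq h1 h3
      exact ⟨z', h4⟩
    · cases n with
      | zero =>
        obtain rfl : z = x := h1
        obtain rfl : w = y := h2
        obtain ⟨z', hz'⟩ := (h.fw z w hP 1).2 ⟨w', pw_one.2 hw'⟩
        exact ⟨z', pw_one.1 hz'⟩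
      | succ m =>
        obtain ⟨v, h3, h4⟩ := pw_succ'.1 h1
        exact ⟨v, h3⟩
  let g : X ≃. X :=
    { toFun := fun z => if h : ∃ w, G z w then some h.choose else none
      invFun := fun w => if h : ∃ z, G z w then some h.choose else none
      inv := by
        intro z w
        constructor
        · intro hz
          by_cases h1 : ∃ z, G z w
          · rw [dif_pos h1] at hz
            have h2 : G z w := Option.some.inj hz ▸ h1.choose_spec
            have h3 : ∃ w, G z w := ⟨w, h2⟩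
            rw [dif_pos h3]
            exact congrArg some (hu z _ _ h3.choose_spec h2)
          · rw [dif_neg h1] at hz
            exact absurd hz (by simp)
        · intro hw
          by_cases h1 : ∃ w, G z w
          · rw [dif_pos h1] at hw
            have h2 : G z w := Option.some.inj hw ▸ h1.choose_spec
            have h3 : ∃ z, G z w := ⟨z, h2⟩
            rw [dif_pos h3]
            exact congrArg some (hi _ _ w h3.choose_spec h2)
          · rw [dif_neg h1] at hw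
            exact absurd hw (by simp) }
  have hg : ∀ z w, w ∈ g z ↔ G z w := by
    intro z w
    show w ∈ (if h : ∃ w, G z w then some h.choose else none) ↔ _
    by_cases h1 : ∃ w, G z w
    · rw [dif_pos h1, Option.mem_some_iff]
      constructor
      · rintro rfl; exact h1.choose_spec
      · intro h2; exact hu z _ _ h1.choose_spec h2
    · rw [dif_neg h1]
      constructor
      · intro h2; exact absurd h2 (Option.not_mem_none _)
      · intro h2; exact absurd ⟨w, h2⟩ h1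
  refine ⟨g, ?_, ?_⟩
  · intro x y hy
    obtain ⟨w, hw⟩ := hex y (Or.inr ⟨x, hy⟩)
    exact ⟨w, (hg y w).2 hw⟩
  · apply PEquiv.ext
    intro z
    apply Option.ext
    intro w
    rw [← Option.mem_def, ← Option.mem_def, PEquiv.mem_trans, PEquiv.mem_trans]
    constructor
    · rintro ⟨z', h1, h2⟩
      obtain ⟨v, hv⟩ := hex z (Or.inl ⟨z', h1⟩)
      obtain ⟨w', h3, h4⟩ := hstep z v z' hv h1
      obtain rfl := hu z' _ _ ((hg z' w).1 h2) h4
      exact ⟨v, (hg z v).2 hv, h3⟩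
    · rintro ⟨v, h1, h2⟩
      have h1' := (hg z v).1 h1
      obtain ⟨z', hz'⟩ := hend z v w h1' h2
      obtain ⟨w', h3, h4⟩ := hstep z v z' h1' hz'
      obtain rfl := Option.mem_unique h2 h3
      exact ⟨z', hz', (hg z' w).2 h4⟩

end Pool.Agent.Q302.CC
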