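import Mathlib

/-!
# Injections which do not lower the rank
-/

open Cardinal

namespace Pool.Agent.Q302.CC

universe u

/-- If for every `r` there are at most as many elements of rank `≥ r` in `A` as in `B`, then there is
an injection of `A` into `B` which does not lower the rank. -/
theorem hall {A B : Type u} {W : Type} [LinearOrder W] [WellFoundedLT W] (a : A → W) (b : B → W)
    (h : ∀ r, #{x // r ≤ a x} ≤ #{y // r ≤ b y}) :
    ∃ f : A → B, Function.Injective f ∧ ∀ x, a x ≤ b (f x) := by
  classical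
  let lam : A → Cardinal.{u} := fun x => #{y : B // a x ≤ b y}
  have hmono : ∀ x y, a x ≤ a y → lam y ≤ lam x := fun x y hxy =>
    Cardinal.mk_subtype_mono fun z hz => le_trans hxy hz
  have hmin : ∀ S : Set A, S.Nonempty → ∃ y ∈ S, ∀ z ∈ S, a y ≤ a z := by
    intro S hS
    obtain ⟨w, ⟨y, hy, rfl⟩, hw⟩ := WellFounded.has_min (wellFounded_lt (α := W)) (a '' S)
      (hS.image a)
    exact ⟨y, hy, fun z hz => not_lt.1 (hw _ ⟨z, hz, rfl⟩)⟩
  have c1 : ∀ x, #{y // lam y ≤ lam x} ≤ lam x := by
    intro x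
    obtain ⟨y0, hy0, hy0'⟩ := hmin {y | lam y = lam x} ⟨x, rfl⟩
    have hy0e : lam y0 = lam x := hy0
    have hsub : ∀ y, lam y ≤ lam x → a y0 ≤ a y := by
      intro y hy
      by_contra hlt
      have h1 := hmono y y0 (not_le.1 hlt).le
      have h2 : lam y = lam x := le_antisymm hy (hy0e ▸ h1)
      exact hlt (hy0' y h2)
    calc #{y // lam y ≤ lam x} ≤ #{y // a y0 ≤ a y} := Cardinal.mk_subtype_mono hsub
      _ ≤ lam y0 := h (a y0)
      _ = lam x := hy0e
  have c2 : ∀ x, #{y // lam y < lam x} < lam x := by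
    intro x
    rcases Set.eq_empty_or_nonempty {y | lam y < lam x} with he | hne
    · have h1 : #{y // lam y < lam x} = 0 := by
        rw [Cardinal.mk_eq_zero_iff]
        exact ⟨fun y => by have : y.1 ∈ {y | lam y < lam x} := y.2; rw [he] at this; exact this⟩
      rw [h1]
      refine lt_of_lt_of_le ?_ (c1 x)
      rw [pos_iff_ne_zero, Ne, Cardinal.mk_eq_zero_iff]
      intro hemp
      exact hemp.false ⟨x, le_refl _⟩
    · obtain ⟨y0, hy0, hy0'⟩ := hmin _ hne
      refine lt_of_le_of_lt ?_ (show lam y0 < lam x from hy0)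
      refine le_trans (Cardinal.mk_subtype_mono fun y hy => ?_) (c1 y0)
      exact hmono y0 y (hy0' y hy)
  -- positions within the groups
  have hpos : ∀ κ : Cardinal.{u}, ∃ p : {y : A // lam y = κ} → Ordinal.{u},
      Function.Injective p ∧ ∀ x, #{y // p y < p x} < #{y : A // lam y = κ} := by
    intro κ
    obtain ⟨r, hr, hr'⟩ := Cardinal.exists_ord_eq {y : A // lam y = κ}
    refine ⟨fun x => Ordinal.typein r x, fun x y hxy => ?_, fun x => ?_⟩
    · exact Ordinal.typein_injective r hxy
    · have h1 : (Ordinal.typein r x).card < #{y : A // lam y = κ} := by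
        rw [← Cardinal.lt_ord, hr']
        exact Ordinal.typein_lt_type r x
      rw [Ordinal.card_typein] at h1
      refine lt_of_le_of_lt (Cardinal.mk_subtype_mono fun y hy => ?_) h1
      exact (Ordinal.typein_lt_typein r).1 hy
  choose p hp1 hp2 using hpos
  let pos : A → Ordinal.{u} := fun x => p (lam x) ⟨x, rfl⟩
  have hpos_eq : ∀ κ (y : {y : A // lam y = κ}), p κ y = pos y.1 := by
    rintro κ ⟨y, rfl⟩
    rfl
  let Φ : A → Cardinal.{u} × Ordinal.{u} := fun x => (lam x, pos x)
  let rel : A → A → Prop := InvImage (Prod.Lex (· < ·) (· < ·)) Φ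
  have hwf : WellFounded rel := InvImage.wf Φ (WellFounded.prod_lex wellFounded_lt wellFounded_lt)
  have hrel : ∀ y x, rel y x ↔ lam y < lam x ∨ (lam y = lam x ∧ pos y < pos x) := by
    intro y x
    exact Prod.lex_def
  have hirr : ∀ x, ¬ rel x x := fun x => hwf.irrefl.irrefl x
  have htri : ∀ x y, x ≠ y → rel x y ∨ rel y x := by
    intro x y hxy
    rw [hrel, hrel]
    rcases lt_trichotomy (lam x) (lam y) with h1 | h1 | h1
    · exact Or.inl (Or.inl h1)
    · rcases lt_trichotomy (pos x) (pos y) with h2 | h2 | h2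
      · exact Or.inl (Or.inr ⟨h1, h2⟩)
      · exfalso
        have h3 : p (lam y) ⟨x, h1⟩ = p (lam y) ⟨y, rfl⟩ := by
          rw [hpos_eq (lam y) ⟨x, h1⟩]; exact h2
        exact hxy (congrArg Subtype.val (hp1 _ h3))
      · exact Or.inr (Or.inr ⟨h1.symm, h2⟩)
    · exact Or.inr (Or.inl h1)
  have c3 : ∀ x, #{y // rel y x} < lam x := by
    intro x
    rcases le_or_gt ℵ₀ (lam x) with hinf | hfin
    · have h1 : #{y // lam y = lam x ∧ pos y < pos x} < lam x := by
        refine lt_of_lt_of_le ?_ (c1 x)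
        refine lt_of_lt_of_le ?_ (Cardinal.mk_subtype_mono (p := fun y => lam y = lam x)
          fun y hy => le_of_eq hy)
        refine lt_of_le_of_lt ?_ (hp2 (lam x) ⟨x, rfl⟩)
        refine Cardinal.mk_le_of_injective
          (f := fun y => ⟨⟨y.1, y.2.1⟩, by
            rw [hpos_eq (lam x) ⟨y.1, y.2.1⟩, hpos_eq (lam x) ⟨x, rfl⟩]; exact y.2.2⟩) ?_
        intro y z hyz
        have := congrArg (fun w => w.1.1) hyz
        exact Subtype.ext this
      have h2 : #{y // rel y x} ≤ #{y // lam y < lam x} +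
          #{y // lam y = lam x ∧ pos y < pos x} := by
        have h3 : {y | rel y x} ⊆ {y | lam y < lam x} ∪ {y | lam y = lam x ∧ pos y < pos x} := by
          intro y hy
          exact (hrel y x).1 hy
        exact (Cardinal.mk_le_mk_of_subset h3).trans (Cardinal.mk_union_le _ _)
      exact lt_of_le_of_lt h2 (Cardinal.add_lt_of_lt hinf (c2 x) h1)
    · have h1 : insert x {y | rel y x} ⊆ {y | lam y ≤ lam x} := by
        intro y hy
        rcases Set.mem_insert_iff.1 hy with rfl | hy
        · exact le_refl (lam y)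
        · rcases (hrel y x).1 hy with h2 | ⟨h2, -⟩
          · exact h2.le
          · exact le_of_eq h2
      have h2 := (Cardinal.mk_le_mk_of_subset h1).trans (c1 x)
      rw [Cardinal.mk_insert (by exact hirr x)] at h2
      have h3 : #{y // rel y x} + 1 ≤ lam x := h2
      have h4 : #{y // rel y x} < ℵ₀ := lt_of_le_of_lt (le_trans le_self_add h3) hfin
      obtain ⟨n, hn⟩ := Cardinal.lt_aleph0.1 h4
      obtain ⟨m, hm⟩ := Cardinal.lt_aleph0.1 hfin
      rw [hn, hm] at h3
      rw [hn, hm]
      norm_cast at h3 ⊢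
  have hF : ∀ x (ih : ∀ z, rel z x → {y : B // a z ≤ b y}),
      ∃ y : {y : B // a x ≤ b y}, ∀ z (hz : rel z x), (ih z hz).1 ≠ y.1 := by
    intro x ih
    by_contra hcon
    push Not at hcon
    choose g hg1 hg2 using hcon
    refine absurd (c3 x) (not_lt.2 ?_)
    refine Cardinal.mk_le_of_injective (f := fun y : {y : B // a x ≤ b y} => ⟨g y, hg1 y⟩) ?_
    intro y z hyz
    have h1 : g y = g z := congrArg Subtype.val hyz
    have key : ∀ (v w : A) (hv : rel v x) (hw : rel w x), v = w → (ih v hv).1 = (ih w hw).1 := by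
      rintro v _ hv hw rfl
      rfl
    apply Subtype.ext
    rw [← hg2 y, ← hg2 z]
    exact key _ _ _ _ h1
  choose F hF' using hF
  let f : ∀ x, {y : B // a x ≤ b y} := hwf.fix (C := fun x => {y : B // a x ≤ b y}) F
  have hf : ∀ x, f x = F x fun z _ => f z := fun x => hwf.fix_eq (C := fun x => _) F x
  have hne : ∀ z x, rel z x → (f z).1 ≠ (f x).1 := by
    intro z x hz
    rw [hf x]
    exact hF' x (fun z _ => f z) z hz
  refine ⟨fun x => (f x).1, fun x y hxy => ?_, fun x => (f x).2⟩
  by_contra hn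
  rcases htri x y hn with h1 | h1
  · exact hne x y h1 hxy
  · exact hne y x h1 hxy.symm

end Pool.Agent.Q302.CC
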