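import Pool.Agent.Q302.CC.Basic
import Pool.Agent.Q302.CC.Hall

/-!
# Embeddings of partial injections and the numbers of components
-/

open Cardinal

namespace Pool.Agent.Q302.CC

universe u

variable {X : Type u}

/-- All powers of `α` are defined at `x`. -/
def fwd (α : X ≃. X) (x : X) : Prop := ∀ n, ∃ y, pw α n x y

/-- `x` is in the image of all powers of `α`. -/
def bwd (α : X ≃. X) (x : X) : Prop := ∀ n, ∃ y, pw α n y x

/-- `x` is not periodic. -/
def aper (α : X ≃. X) (x : X) : Prop := ∀ n, 0 < n → ¬ pw α n x x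

/-- `x` has the minimal period `n`. -/
def per (α : X ≃. X) (n : ℕ) (x : X) : Prop :=
  0 < n ∧ pw α n x x ∧ ∀ m, 0 < m → m < n → ¬ pw α m x x

/-- The number of the components of `α` which contain a point with the property `P`. -/
noncomputable def cnt (α : X ≃. X) (P : X → Prop) : Cardinal.{u} :=
  #{C : Set X // ∃ x, P x ∧ C = cl α x}

/-- `x` belongs to the domain or to the image of `α`. -/
def sp (α : X ≃. X) (x : X) : Prop := (∃ y, y ∈ α x) ∨ (∃ y, x ∈ α y)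

variable {α β : X ≃. X}

lemma eq_none_iff {x : X} : α x = none ↔ ∀ y, y ∉ α x := Option.eq_none_iff_forall_not_mem

lemma ne_none {x y : X} (h : y ∈ α x) : α x ≠ none := fun h' => eq_none_iff.1 h' y h

lemma pw_first {n : ℕ} {x y : X} (h : pw α n x y) (hn : 0 < n) : α x ≠ none := by
  obtain ⟨m, rfl⟩ := Nat.exists_eq_succ_of_ne_zero hn.ne'
  obtain ⟨z, h1, -⟩ := pw_succ'.1 h
  exact ne_none h1

lemma pw_last {n : ℕ} {x y : X} (h : pw α n x y) (hn : 0 < n) : ∃ z, y ∈ α z := by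
  obtain ⟨m, rfl⟩ := Nat.exists_eq_succ_of_ne_zero hn.ne'
  obtain ⟨z, -, h1⟩ := h
  exact ⟨z, h1⟩

lemma sp_cl {x y : X} (h : y ∈ cl α x) (hx : sp α x) : sp α y := by
  obtain ⟨n, h⟩ := h
  rcases Nat.eq_zero_or_pos n with rfl | hn
  · rcases h with h | h
    · obtain rfl : x = y := h
      exact hx
    · obtain rfl : y = x := h
      exact hx
  · rcases h with h | h
    · exact Or.inr (pw_last h hn)
    · left
      have := pw_first h hn
      rw [Ne, eq_none_iff] at this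
      push Not at this
      exact this

lemma fwd_cl {x y : X} (h : y ∈ cl α x) (hx : fwd α x) : fwd α y := by
  obtain ⟨n, h | h⟩ := h
  · intro m
    obtain ⟨z, hz⟩ := hx (n + m)
    obtain ⟨w, h1, h2⟩ := pw_add.1 hz
    obtain rfl := pw_uniq h h1
    exact ⟨z, h2⟩
  · intro m
    rcases le_total n m with hle | hle
    · obtain ⟨z, hz⟩ := hx (m - n)
      refine ⟨z, ?_⟩
      have := pw_add.2 ⟨x, h, hz⟩
      rwa [Nat.add_sub_cancel' hle] at this
    · have h' := h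
      rw [show n = m + (n - m) by omega] at h'
      obtain ⟨z, h1, -⟩ := pw_add.1 h'
      exact ⟨z, h1⟩

lemma bwd_cl {x y : X} (h : y ∈ cl α x) (hx : bwd α x) : bwd α y := by
  obtain ⟨n, h | h⟩ := h
  · intro m
    rcases le_total n m with hle | hle
    · obtain ⟨z, hz⟩ := hx (m - n)
      refine ⟨z, ?_⟩
      have := pw_add.2 ⟨x, hz, h⟩
      rwa [Nat.sub_add_cancel hle] at this
    · have h' := h
      rw [show n = (n - m) + m by omega] at h'
      obtain ⟨z, -, h1⟩ := pw_add.1 h'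
      exact ⟨z, h1⟩
  · intro m
    obtain ⟨z, hz⟩ := hx (m + n)
    obtain ⟨w, h1, h2⟩ := pw_add.1 hz
    obtain rfl := pw_inj h h2
    exact ⟨z, h1⟩

lemma aper_cl {x y : X} (h : y ∈ cl α x) (hx : aper α x) : aper α y :=
  fun n hn hy => hx n hn (per_cl (cl_symm h) hy)

lemma per_cl' {n : ℕ} {x y : X} (h : y ∈ cl α x) (hx : per α n x) : per α n y :=
  ⟨hx.1, per_cl h hx.2.1, fun m h1 h2 h3 => hx.2.2 m h1 h2 (per_cl (cl_symm h) h3)⟩

lemma end_uniq {x y : X} (h : y ∈ cl α x) (hx : α x = none) (hy : α y = none) : y = x := by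
  obtain ⟨n, h⟩ := h
  rcases Nat.eq_zero_or_pos n with rfl | hn
  · rcases h with h | h
    · exact (show x = y from h).symm
    · exact h
  · rcases h with h | h
    · exact absurd hx (pw_first h hn)
    · exact absurd hy (pw_first h hn)

lemma pw_mono_bwd {m n : ℕ} {x : X} (h : ∃ y, pw α n y x) (hmn : m ≤ n) : ∃ y, pw α m y x := by
  obtain ⟨y, hy⟩ := h
  rw [show n = (n - m) + m by omega] at hy
  obtain ⟨z, -, h1⟩ := pw_add.1 hy
  exact ⟨z, h1⟩

open Classical in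
/-- the base point of a component: its last point if there is one, otherwise its first point, if
there is one -/
noncomputable def bpS (α : X ≃. X) (C : Set X) (hC : C.Nonempty) : X :=
  if h : ∃ y ∈ C, α y = none then h.choose
  else if h : ∃ y ∈ C, ∀ z, y ∉ α z then h.choose else hC.choose

/-- the base point of the component of `x` -/
noncomputable def nrm (α : X ≃. X) (x : X) : X := bpS α (cl α x) ⟨x, mem_cl_self x⟩

lemma nrm_congr {x y : X} (h : cl α x = cl α y) : nrm α x = nrm α y := by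
  have key : ∀ (C D : Set X) (hC : C.Nonempty) (hD : D.Nonempty), C = D →
      bpS α C hC = bpS α D hD := by
    rintro C _ hC hD rfl
    rfl
  exact key _ _ _ _ h

lemma nrm_mem (x : X) : nrm α x ∈ cl α x := by
  unfold nrm bpS
  split_ifs with h1 h2
  · exact h1.choose_spec.1
  · exact h2.choose_spec.1
  · exact (⟨x, mem_cl_self x⟩ : (cl α x).Nonempty).choose_spec

lemma nrm_end {x : X} (h : ∃ y ∈ cl α x, α y = none) : α (nrm α x) = none := by
  unfold nrm bpS
  rw [dif_pos h]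
  exact h.choose_spec.2

lemma nrm_start {x : X} (h0 : ¬ ∃ y ∈ cl α x, α y = none) (h : ∃ y ∈ cl α x, ∀ z, y ∉ α z) :
    ∀ z, nrm α x ∉ α z := by
  unfold nrm bpS
  rw [dif_neg h0, dif_pos h]
  exact h.choose_spec.2

/-- base points -/
def Base (α : X ≃. X) (x : X) : Prop := sp α x ∧ nrm α x = x

lemma base_nrm {x : X} (h : sp α x) : Base α (nrm α x) :=
  ⟨sp_cl (nrm_mem x) h, nrm_congr (cl_eq (nrm_mem x))⟩

lemma base_eq {x y : X} (hx : Base α x) (hy : Base α y) (h : y ∈ cl α x) : x = y := by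
  rw [← hx.2, ← hy.2]
  exact nrm_congr (cl_eq h).symm

lemma base_end {x : X} (hx : Base α x) (h : ∃ y ∈ cl α x, α y = none) : α x = none := by
  have := nrm_end h
  rwa [hx.2] at this

lemma base_fwd {x : X} (hx : Base α x) (h : α x ≠ none) : fwd α x := by
  classical
  by_contra hcon
  unfold fwd at hcon
  push Not at hcon
  have hs := Nat.find_spec hcon
  have h0 : Nat.find hcon ≠ 0 := by
    intro h0
    rw [h0] at hs
    exact hs x rfl
  obtain ⟨m, hm⟩ := Nat.exists_eq_succ_of_ne_zero h0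
  have hlt : ¬ ∀ y, ¬ pw α m x y := Nat.find_min hcon (by omega)
  push Not at hlt
  obtain ⟨y, hy⟩ := hlt
  apply h
  apply base_end hx
  refine ⟨y, ⟨m, Or.inl hy⟩, ?_⟩
  rw [eq_none_iff]
  intro z hz
  rw [hm] at hs
  exact hs z ⟨y, hy, hz⟩

lemma base_start {x : X} (hx : Base α x) (h : α x ≠ none) (hb : ¬ bwd α x) :
    ∀ z, x ∉ α z := by
  classical
  unfold bwd at hb
  push Not at hb
  have hs := Nat.find_spec hb
  have h0 : Nat.find hb ≠ 0 := by
    intro h0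
    rw [h0] at hs
    exact hs x rfl
  obtain ⟨m, hm⟩ := Nat.exists_eq_succ_of_ne_zero h0
  have hlt : ¬ ∀ y, ¬ pw α m y x := Nat.find_min hb (by omega)
  push Not at hlt
  obtain ⟨y, hy⟩ := hlt
  have := nrm_start (α := α) (x := x) (fun he => h (base_end hx he))
    ⟨y, ⟨m, Or.inr hy⟩, fun z hz => by
      rw [hm] at hs
      exact hs z (pw_succ'.2 ⟨y, hz, hy⟩)⟩
  rwa [hx.2] at this

open Classical in
/-- the type of a base point -/
noncomputable def ty (α : X ≃. X) (x : X) : ℕ :=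
  if α x = none then 0
  else if h : ∃ n, 0 < n ∧ pw α n x x then Nat.find h + 1 else 1

open Classical in
/-- the rank of a base point -/
noncomputable def rk (α : X ≃. X) (x : X) : ℕ∞ :=
  if h : bwd α x then ⊤ else if α x = none then (Nat.find (not_forall.1 h) : ℕ) else 0

lemma ty_zero {x : X} : ty α x = 0 ↔ α x = none := by
  unfold ty
  split_ifs with h1 h2
  · simp [h1]
  · simp [h1]
  · simp [h1]

lemma ty_one {x : X} : ty α x = 1 ↔ α x ≠ none ∧ aper α x := by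
  classical
  unfold ty
  split_ifs with h1 h2
  · simp [h1]
  · constructor
    · intro h
      have := (Nat.find_spec h2).1
      omega
    · rintro ⟨-, h⟩
      obtain ⟨n, hn, hn'⟩ := h2
      exact absurd hn' (h n hn)
  · simp only [true_iff]
    exact ⟨h1, fun n hn hn' => h2 ⟨n, hn, hn'⟩⟩

lemma ty_per {n : ℕ} {x : X} (hn : 0 < n) : ty α x = n + 1 ↔ per α n x := by
  classical
  constructor
  · intro h
    unfold ty at h
    split_ifs at h with h1 h2
    · have h3 : Nat.find h2 = n := by omega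
      have h4 := Nat.find_spec h2
      rw [h3] at h4
      exact ⟨hn, h4.2, fun m hm hmn hm' => Nat.find_min h2 (by rw [h3]; exact hmn) ⟨hm, hm'⟩⟩
    · omega
  · intro h
    have h1 : α x ≠ none := pw_first h.2.1 hn
    have h2 : ∃ n, 0 < n ∧ pw α n x x := ⟨n, hn, h.2.1⟩
    unfold ty
    rw [if_neg h1, dif_pos h2]
    congr 1
    rw [Nat.find_eq_iff]
    exact ⟨⟨hn, h.2.1⟩, fun m hm hm' => h.2.2 m hm'.1 hm hm'.2⟩

lemma per_bwd {n : ℕ} {x : X} (h : per α n x) : bwd α x := by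
  intro m
  have h1 : pw α (n * m) x x := pw_mul h.2.1
  exact pw_mono_bwd ⟨x, h1⟩ (Nat.le_mul_of_pos_left m h.1)

lemma rk_bwd {x : X} (h : bwd α x) : rk α x = ⊤ := by
  unfold rk; rw [dif_pos h]

lemma le_rk_end {x : X} (hx : α x = none) (r : ℕ∞) :
    r ≤ rk α x ↔ ∀ n : ℕ, (n : ℕ∞) < r → ∃ y, pw α n y x := by
  classical
  by_cases hb : bwd α x
  · rw [rk_bwd hb]
    simp only [le_top, true_iff]
    exact fun n _ => hb n
  · have h1 : rk α x = (Nat.find (not_forall.1 hb) : ℕ) := by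
      unfold rk; rw [dif_neg hb, if_pos hx]
    rw [h1]
    constructor
    · intro h n hn
      have h2 : n < Nat.find (not_forall.1 hb) := by exact_mod_cast lt_of_lt_of_le hn h
      have := Nat.find_min (not_forall.1 hb) h2
      rwa [not_not] at this
    · intro h
      by_contra hcon
      exact Nat.find_spec (not_forall.1 hb) (h _ (not_le.1 hcon))

lemma rk_ray {x : X} (hx : α x ≠ none) (hb : ¬ bwd α x) : rk α x = 0 := by
  unfold rk; rw [dif_neg hb, if_neg hx]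

/-- Components are counted by their base points. -/
lemma cnt_eq {P : X → Prop} (h1 : ∀ x, P x → sp α x) (h2 : ∀ x, P x → P (nrm α x)) :
    cnt α P = #{x // Base α x ∧ P x} := by
  apply le_antisymm
  · have hx : ∀ C : {C : Set X // ∃ x, P x ∧ C = cl α x}, ∃ x, (Base α x ∧ P x) ∧
        C.1 = cl α x := by
      rintro ⟨C, x, hP, hC⟩
      exact ⟨nrm α x, ⟨base_nrm (h1 x hP), h2 x hP⟩, hC.trans (cl_eq (nrm_mem x)).symm⟩
    choose f hf1 hf2 using hx
    refine Cardinal.mk_le_of_injective (f := fun C => ⟨f C, hf1 C⟩) ?_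
    intro C D hCD
    have h3 : f C = f D := congrArg Subtype.val hCD
    apply Subtype.ext
    rw [hf2 C, hf2 D, h3]
  · refine Cardinal.mk_le_of_injective
      (f := fun x : {x // Base α x ∧ P x} => ⟨cl α x.1, x.1, x.2.2, rfl⟩) ?_
    intro x y hxy
    have h3 : cl α x.1 = cl α y.1 := congrArg Subtype.val hxy
    apply Subtype.ext
    exact base_eq x.2.1 y.2.1 (cl_eq_iff.1 h3.symm)

/-- the points of the type `ℓ` and of rank at least `r` -/
def Pf (α : X ≃. X) (ℓ : ℕ) (r : ℕ∞) (x : X) : Prop :=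
  match ℓ with
  | 0 => α x = none ∧ sp α x ∧ ∀ n : ℕ, (n : ℕ∞) < r → ∃ y, pw α n y x
  | 1 => fwd α x ∧ aper α x ∧ (r = 0 ∨ bwd α x)
  | n + 2 => per α (n + 1) x

lemma Pf_sp {ℓ : ℕ} {r : ℕ∞} {x : X} (h : Pf α ℓ r x) : sp α x := by
  match ℓ, h with
  | 0, h => exact h.2.1
  | 1, h =>
    obtain ⟨y, hy⟩ := h.1 1
    exact Or.inl ⟨y, pw_one.1 hy⟩
  | n + 2, h => exact Or.inr (pw_last h.2.1 h.1)

lemma Pf_nrm {ℓ : ℕ} {r : ℕ∞} {x : X} (h : Pf α ℓ r x) : Pf α ℓ r (nrm α x) := by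
  match ℓ, h with
  | 0, h =>
    have h1 : nrm α x = x := end_uniq (nrm_mem x) h.1 (nrm_end ⟨x, mem_cl_self x, h.1⟩)
    rw [h1]
    exact h
  | 1, h =>
    exact ⟨fwd_cl (nrm_mem x) h.1, aper_cl (nrm_mem x) h.2.1,
      h.2.2.imp id (bwd_cl (nrm_mem x))⟩
  | n + 2, h => exact per_cl' (nrm_mem x) h

lemma Pf_iff {ℓ : ℕ} {r : ℕ∞} {x : X} (hx : Base α x) :
    (ty α x = ℓ ∧ r ≤ rk α x) ↔ Pf α ℓ r x := by
  match ℓ with
  | 0 =>
    constructor
    · rintro ⟨h1, h2⟩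
      rw [ty_zero] at h1
      exact ⟨h1, hx.1, (le_rk_end h1 r).1 h2⟩
    · rintro ⟨h1, -, h2⟩
      exact ⟨ty_zero.2 h1, (le_rk_end h1 r).2 h2⟩
  | 1 =>
    constructor
    · rintro ⟨h1, h2⟩
      rw [ty_one] at h1
      refine ⟨base_fwd hx h1.1, h1.2, ?_⟩
      by_cases hb : bwd α x
      · exact Or.inr hb
      · left
        rw [rk_ray h1.1 hb] at h2
        exact le_antisymm h2 bot_le
    · rintro ⟨h1, h2, h3⟩
      obtain ⟨y, hy⟩ := h1 1
      refine ⟨ty_one.2 ⟨ne_none (pw_one.1 hy), h2⟩, ?_⟩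
      rcases h3 with rfl | h3
      · exact bot_le
      · rw [rk_bwd h3]; exact le_top
  | n + 2 =>
    constructor
    · rintro ⟨h1, -⟩
      exact (ty_per (Nat.succ_pos n)).1 h1
    · intro h
      exact ⟨(ty_per (Nat.succ_pos n)).2 h, by rw [rk_bwd (per_bwd h)]; exact le_top⟩

lemma cnt_Pf (ℓ : ℕ) (r : ℕ∞) :
    #{x : {x // Base α x ∧ ty α x = ℓ} // r ≤ rk α x.1} = cnt α (Pf α ℓ r) := by
  rw [cnt_eq (fun x => Pf_sp) (fun x => Pf_nrm)]
  rw [Cardinal.mk_congr (Equiv.subtypeSubtypeEquivSubtypeInter (fun x => Base α x ∧ ty α x = ℓ)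
    (fun x => r ≤ rk α x))]
  congr 2
  ext x
  constructor
  · rintro ⟨⟨h1, h2⟩, h3⟩
    exact ⟨h1, (Pf_iff h1).1 ⟨h2, h3⟩⟩
  · rintro ⟨h1, h2⟩
    obtain ⟨h3, h4⟩ := (Pf_iff h1).2 h2
    exact ⟨⟨h1, h3⟩, h4⟩

lemma cnt_congr {P Q : X → Prop} (h : ∀ x, P x ↔ Q x) : cnt α P = cnt α Q := by
  have : P = Q := funext fun x => propext (h x)
  rw [this]

/-- If `α` has at most as many components of each kind as `β`, then `α` embeds into `β`. -/
theorem emb_of_cnt (h1 : ∀ n, cnt α (per α n) ≤ cnt β (per β n))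
    (h2 : cnt α (fun x => fwd α x ∧ bwd α x ∧ aper α x) ≤
      cnt β (fun x => fwd β x ∧ bwd β x ∧ aper β x))
    (h3 : cnt α (fun x => fwd α x ∧ aper α x) ≤ cnt β (fun x => fwd β x ∧ aper β x))
    (h4 : ∀ n, 0 < n → cnt α (fun x => α x = none ∧ ∃ y, pw α n y x) ≤
      cnt β (fun x => β x = none ∧ ∃ y, pw β n y x))
    (h5 : cnt α (fun x => α x = none ∧ bwd α x) ≤ cnt β (fun x => β x = none ∧ bwd β x)) :
    ∃ g, IsEmb α β g := by
  classical
  have key : ∀ (ℓ : ℕ) (r : ℕ∞), cnt α (Pf α ℓ r) ≤ cnt β (Pf β ℓ r) := by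
    intro ℓ r
    match ℓ with
    | 0 =>
      have e : ∀ γ : X ≃. X, cnt γ (Pf γ 0 r) =
          if r = ⊤ then cnt γ (fun x => γ x = none ∧ bwd γ x)
          else cnt γ (fun x => γ x = none ∧ ∃ y, pw γ (max (r.toNat - 1) 1) y x) := by
        intro γ
        split_ifs with hr
        · apply cnt_congr
          intro x
          subst hr
          constructor
          · rintro ⟨h6, -, h7⟩
            exact ⟨h6, fun n => h7 n (ENat.natCast_lt_top n)⟩
          · rintro ⟨h6, h7⟩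
            obtain ⟨y, hy⟩ := h7 1
            exact ⟨h6, Or.inr ⟨y, pw_one.1 hy⟩, fun n _ => h7 n⟩
        · obtain ⟨k, rfl⟩ := ENat.ne_top_iff_exists.1 hr
          rw [ENat.toNat_natCast]
          apply cnt_congr
          intro x
          constructor
          · rintro ⟨h6, h8, h7⟩
            refine ⟨h6, ?_⟩
            rcases h8 with ⟨y, hy⟩ | ⟨y, hy⟩
            · exact absurd h6 (ne_none hy)
            · rcases le_total (k - 1) 1 with hk | hk
              · rw [max_eq_right hk]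
                exact ⟨y, pw_one.2 hy⟩
              · rw [max_eq_left hk]
                exact h7 (k - 1) (by exact_mod_cast (by omega : k - 1 < k))
          · rintro ⟨h6, h7⟩
            have h8 := pw_mono_bwd h7 (le_max_right (k - 1) 1)
            obtain ⟨y, hy⟩ := h8
            refine ⟨h6, Or.inr ⟨y, pw_one.1 hy⟩, fun n hn => ?_⟩
            have hn' : n < k := by exact_mod_cast hn
            exact pw_mono_bwd h7 (le_trans (by omega) (le_max_left (k - 1) 1))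
      rw [e α, e β]
      split_ifs with hr
      · exact h5
      · exact h4 _ (lt_of_lt_of_le Nat.one_pos (le_max_right _ _))
    | 1 =>
      have e : ∀ γ : X ≃. X, cnt γ (Pf γ 1 r) =
          if r = 0 then cnt γ (fun x => fwd γ x ∧ aper γ x)
          else cnt γ (fun x => fwd γ x ∧ bwd γ x ∧ aper γ x) := by
        intro γ
        split_ifs with hr
        · apply cnt_congr
          intro x
          exact ⟨fun h => ⟨h.1, h.2.1⟩, fun h => ⟨h.1, h.2, Or.inl hr⟩⟩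
        · apply cnt_congr
          intro x
          exact ⟨fun h => ⟨h.1, h.2.2.resolve_left hr, h.2.1⟩,
            fun h => ⟨h.1, h.2.2, Or.inr h.2.1⟩⟩
      rw [e α, e β]
      split_ifs with hr
      · exact h3
      · exact h2
    | n + 2 => exact h1 (n + 1)
  have hex : ∀ ℓ : ℕ, ∃ f : {x // Base α x ∧ ty α x = ℓ} → {x // Base β x ∧ ty β x = ℓ},
      Function.Injective f ∧ ∀ x, rk α x.1 ≤ rk β (f x).1 := by
    intro ℓ
    apply hall (fun x : {x // Base α x ∧ ty α x = ℓ} => rk α x.1)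
      (fun x : {x // Base β x ∧ ty β x = ℓ} => rk β x.1)
    intro r
    rw [cnt_Pf, cnt_Pf]
    exact key ℓ r
  choose f hf1 hf2 using hex
  let Pr : X → X → Prop := fun x y => ∃ h : Base α x, y = (f (ty α x) ⟨x, h, rfl⟩).1
  have hPr : ∀ x y, Pr x y → Base α x ∧ Base β y ∧ ty β y = ty α x ∧ rk α x ≤ rk β y := by
    rintro x y ⟨h, rfl⟩
    exact ⟨h, (f _ _).2.1, (f _ _).2.2, hf2 _ _⟩
  apply Fam.emb (Pr := Pr)
  refine ⟨?_, ?_, ?_, ?_, ?_, ?_⟩
  · intro z hz
    exact ⟨nrm α z, _, ⟨base_nrm hz, rfl⟩, cl_symm (nrm_mem z)⟩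
  · rintro x y x' y' ⟨h, rfl⟩ ⟨h', rfl⟩ hcl
    obtain rfl := base_eq h h' hcl
    exact ⟨rfl, rfl⟩
  · intro x y x' y' hP hP' hcl
    obtain ⟨b1, b2, b3, -⟩ := hPr x y hP
    obtain ⟨b1', b2', b3', -⟩ := hPr x' y' hP'
    obtain rfl := base_eq b2 b2' hcl
    have hty : ty α x = ty α x' := b3.symm.trans b3'
    refine ⟨?_, rfl⟩
    obtain ⟨h, hy⟩ := hP
    obtain ⟨h', hy'⟩ := hP'
    have gen : ∀ (ℓ : ℕ) (a a' : X) (ha : Base α a ∧ ty α a = ℓ) (ha' : Base α a' ∧ ty α a' = ℓ),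
        (f ℓ ⟨a, ha⟩).1 = (f ℓ ⟨a', ha'⟩).1 → a = a' := by
      intro ℓ a a' ha ha' he
      exact congrArg Subtype.val (hf1 ℓ (Subtype.ext he))
    have gen2 : ∀ (ℓ : ℕ) (hℓ : ty α x' = ℓ), (f ℓ ⟨x', h', hℓ⟩).1 = y := by
      rintro _ rfl
      exact hy'.symm
    exact gen (ty α x) x x' ⟨h, rfl⟩ ⟨h', hty.symm⟩ (hy.symm.trans (gen2 _ hty.symm).symm)
  · intro x y hP n
    obtain ⟨b1, b2, b3, -⟩ := hPr x y hP
    by_cases hx : α x = none
    · have hy : β y = none := by rw [← ty_zero, b3, ty_zero]; exact hx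
      rcases Nat.eq_zero_or_pos n with rfl | hn
      · exact ⟨fun _ => ⟨y, rfl⟩, fun _ => ⟨x, rfl⟩⟩
      · exact ⟨fun ⟨z, hz⟩ => absurd hx (pw_first hz hn),
          fun ⟨z, hz⟩ => absurd hy (pw_first hz hn)⟩
    · have hy : β y ≠ none := by rw [Ne, ← ty_zero, b3, ty_zero]; exact hx
      exact ⟨fun _ => base_fwd b2 hy n, fun _ => base_fwd b1 hx n⟩
  · intro x y hP n hn
    obtain ⟨b1, b2, b3, b4⟩ := hPr x y hP
    by_cases hby : bwd β y
    · exact hby n
    by_cases hx : α x = none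
    · have hy : β y = none := by rw [← ty_zero, b3, ty_zero]; exact hx
      have h6 : ((n + 1 : ℕ) : ℕ∞) ≤ rk α x := by
        rw [le_rk_end hx]
        intro m hm
        have : m < n + 1 := by exact_mod_cast hm
        exact pw_mono_bwd hn (by omega)
      exact (le_rk_end hy _).1 (h6.trans b4) n (by exact_mod_cast Nat.lt_succ_self n)
    · have hy : β y ≠ none := by rw [Ne, ← ty_zero, b3, ty_zero]; exact hx
      have hbx : ¬ bwd α x := by
        intro hb
        rw [rk_bwd hb, rk_ray hy hby] at b4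
        exact absurd b4 (by simp)
      rcases Nat.eq_zero_or_pos n with rfl | hn'
      · exact ⟨y, rfl⟩
      · obtain ⟨z, hz⟩ := hn
        obtain ⟨w, hw⟩ := pw_last hz hn'
        exact absurd hw (base_start b1 hx hbx w)
  · intro x y hP n
    obtain ⟨b1, b2, b3, -⟩ := hPr x y hP
    rcases Nat.eq_zero_or_pos n with rfl | hn
    · exact ⟨fun _ => rfl, fun _ => rfl⟩
    obtain ⟨ℓ, hℓ⟩ : ∃ ℓ, ty α x = ℓ := ⟨_, rfl⟩
    rw [hℓ] at b3
    match ℓ, hℓ, b3 with
    | 0, hℓ, b3 =>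
      rw [ty_zero] at hℓ b3
      exact ⟨fun h => absurd hℓ (pw_first h hn), fun h => absurd b3 (pw_first h hn)⟩
    | 1, hℓ, b3 =>
      rw [ty_one] at hℓ b3
      exact ⟨fun h => absurd h (hℓ.2 n hn), fun h => absurd h (b3.2 n hn)⟩
    | m + 2, hℓ, b3 =>
      have e1 := (ty_per (Nat.succ_pos m)).1 hℓ
      have e2 := (ty_per (Nat.succ_pos m)).1 b3
      rw [pw_dvd e1.2.1 e1.2.2 e1.1, pw_dvd e2.2.1 e2.2.2 e2.1]

/-! ### The numbers of components of an embedded partial injection -/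

section

variable {g : X ≃. X}

lemma IsEmb.step (h : IsEmb α β g) {z w z' : X} (hw : w ∈ g z) (hz : z' ∈ α z) :
    ∃ w', w' ∈ g z' ∧ w' ∈ β w := by
  obtain ⟨w', hw'⟩ := h.dom z z' hz
  have h1 : w' ∈ (α.trans g) z := (PEquiv.mem_trans _ _ _ _).2 ⟨z', hz, hw'⟩
  rw [h.comm, PEquiv.mem_trans] at h1
  obtain ⟨v, h2, h3⟩ := h1
  obtain rfl := Option.mem_unique hw h2
  exact ⟨w', hw', h3⟩

lemma IsEmb.back (h : IsEmb α β g) {z w w' : X} (hw : w ∈ g z) (hw' : w' ∈ β w) :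
    ∃ z', z' ∈ α z ∧ w' ∈ g z' := by
  have h1 : w' ∈ (g.trans β) z := (PEquiv.mem_trans _ _ _ _).2 ⟨w, hw, hw'⟩
  rw [← h.comm, PEquiv.mem_trans] at h1
  exact h1

lemma IsEmb.hpw (h : IsEmb α β g) {n : ℕ} {z w z' : X} (hw : w ∈ g z) (hz : pw α n z z') :
    ∃ w', w' ∈ g z' ∧ pw β n w w' := by
  induction n generalizing z' with
  | zero =>
    obtain rfl : z = z' := hz
    exact ⟨w, hw, rfl⟩
  | succ n ih =>
    obtain ⟨v, h1, h2⟩ := hz
    obtain ⟨v', h3, h4⟩ := ih h1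
    obtain ⟨w', h5, h6⟩ := h.step h3 h2
    exact ⟨w', h5, v', h4, h6⟩

lemma IsEmb.pw_back (h : IsEmb α β g) {n : ℕ} {z w w' : X} (hw : w ∈ g z)
    (hw' : pw β n w w') : ∃ z', w' ∈ g z' ∧ pw α n z z' := by
  induction n generalizing w' with
  | zero =>
    obtain rfl : w = w' := hw'
    exact ⟨z, hw, rfl⟩
  | succ n ih =>
    obtain ⟨v, h1, h2⟩ := hw'
    obtain ⟨v', h3, h4⟩ := ih h1
    obtain ⟨z', h5, h6⟩ := h.back h3 h2
    exact ⟨z', h6, v', h4, h5⟩

lemma IsEmb.hsp (h : IsEmb α β g) {z : X} (hz : sp α z) : ∃ w, w ∈ g z := by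
  rcases hz with ⟨y, hy⟩ | ⟨y, hy⟩
  · obtain ⟨w, hw⟩ := h.dom z y hy
    have h1 : w ∈ (α.trans g) z := (PEquiv.mem_trans _ _ _ _).2 ⟨y, hy, hw⟩
    rw [h.comm, PEquiv.mem_trans] at h1
    obtain ⟨v, h2, -⟩ := h1
    exact ⟨v, h2⟩
  · exact h.dom y z hy

lemma IsEmb.cnt_le (h : IsEmb α β g) {P Q : X → Prop} (h1 : ∀ x, P x → sp α x)
    (h2 : ∀ x w, P x → w ∈ g x → Q w) : cnt α P ≤ cnt β Q := by
  have hx : ∀ C : {C : Set X // ∃ x, P x ∧ C = cl α x}, ∃ x w, w ∈ g x ∧ P x ∧ C.1 = cl α x := by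
    rintro ⟨C, x, hP, hC⟩
    obtain ⟨w, hw⟩ := h.hsp (h1 x hP)
    exact ⟨x, w, hw, hP, hC⟩
  choose x w hw hP hC using hx
  refine Cardinal.mk_le_of_injective
    (f := fun C => ⟨cl β (w C), w C, h2 _ _ (hP C) (hw C), rfl⟩) ?_
  intro C D hCD
  have h3 : cl β (w C) = cl β (w D) := congrArg Subtype.val hCD
  have h4 : w D ∈ cl β (w C) := cl_eq_iff.1 h3.symm
  have h5 : x D ∈ cl α (x C) := by
    obtain ⟨n, h4 | h4⟩ := h4
    · obtain ⟨z', h6, h7⟩ := h.pw_back (hw C) h4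
      obtain rfl := g.inj (hw D) h6
      exact ⟨n, Or.inl h7⟩
    · obtain ⟨z', h6, h7⟩ := h.pw_back (hw D) h4
      obtain rfl := g.inj (hw C) h6
      exact ⟨n, Or.inr h7⟩
  apply Subtype.ext
  rw [hC C, hC D, cl_eq h5]

lemma IsEmb.hfwd (h : IsEmb α β g) {x w : X} (hw : w ∈ g x) (hx : fwd α x) : fwd β w := by
  intro n
  obtain ⟨y, hy⟩ := hx n
  obtain ⟨w', -, h2⟩ := h.hpw hw hy
  exact ⟨w', h2⟩

lemma IsEmb.bex (h : IsEmb α β g) {n : ℕ} {x w : X} (hw : w ∈ g x) (hx : ∃ y, pw α n y x) :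
    ∃ y, pw β n y w := by
  rcases Nat.eq_zero_or_pos n with rfl | hn
  · exact ⟨w, rfl⟩
  obtain ⟨y, hy⟩ := hx
  have h1 := pw_first hy hn
  rw [Ne, eq_none_iff] at h1
  push Not at h1
  obtain ⟨v, hv⟩ := h.hsp (Or.inl h1)
  obtain ⟨w', h2, h3⟩ := h.hpw hv hy
  obtain rfl := Option.mem_unique hw h2
  exact ⟨v, h3⟩

lemma IsEmb.pw_iff (h : IsEmb α β g) {n : ℕ} {x w : X} (hw : w ∈ g x) :
    pw α n x x ↔ pw β n w w := by
  constructor
  · intro hx
    obtain ⟨w', h2, h3⟩ := h.hpw hw hx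
    obtain rfl := Option.mem_unique hw h2
    exact h3
  · intro hx
    obtain ⟨z', h2, h3⟩ := h.pw_back hw hx
    obtain rfl := g.inj hw h2
    exact h3

lemma IsEmb.hnone (h : IsEmb α β g) {x w : X} (hw : w ∈ g x) (hx : α x = none) : β w = none := by
  rw [eq_none_iff]
  intro v hv
  obtain ⟨z', h1, -⟩ := h.back hw hv
  exact ne_none h1 hx

/-- An embedding gives inequalities between the numbers of components. -/
theorem IsEmb.all (h : IsEmb α β g) :
    (∀ n, cnt α (per α n) ≤ cnt β (per β n)) ∧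
    (cnt α (fun x => fwd α x ∧ bwd α x ∧ aper α x) ≤
      cnt β (fun x => fwd β x ∧ bwd β x ∧ aper β x)) ∧
    (cnt α (fun x => fwd α x ∧ aper α x) ≤ cnt β (fun x => fwd β x ∧ aper β x)) ∧
    (∀ n, 0 < n → cnt α (fun x => α x = none ∧ ∃ y, pw α n y x) ≤
      cnt β (fun x => β x = none ∧ ∃ y, pw β n y x)) ∧
    (cnt α (fun x => α x = none ∧ bwd α x) ≤
      cnt β (fun x => β x = none ∧ bwd β x)) := by
  have hap : ∀ x w, w ∈ g x → aper α x → aper β w := fun x w hw hx n hn hn' =>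
    hx n hn ((h.pw_iff hw).2 hn')
  have hfs : ∀ x, fwd α x → sp α x := by
    intro x hx
    obtain ⟨y, hy⟩ := hx 1
    exact Or.inl ⟨y, pw_one.1 hy⟩
  refine ⟨fun n => ?_, ?_, ?_, fun n hn => ?_, ?_⟩
  · apply h.cnt_le
    · intro x hx
      exact Or.inr (pw_last hx.2.1 hx.1)
    · intro x w hx hw
      exact ⟨hx.1, (h.pw_iff hw).1 hx.2.1, fun m h1 h2 h3 => hx.2.2 m h1 h2 ((h.pw_iff hw).2 h3)⟩
  · apply h.cnt_le
    · exact fun x hx => hfs x hx.1
    · exact fun x w hx hw => ⟨h.hfwd hw hx.1, fun n => h.bex hw (hx.2.1 n), hap x w hw hx.2.2⟩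
  · apply h.cnt_le
    · exact fun x hx => hfs x hx.1
    · exact fun x w hx hw => ⟨h.hfwd hw hx.1, hap x w hw hx.2⟩
  · apply h.cnt_le
    · rintro x ⟨-, y, hy⟩
      exact Or.inr (pw_last hy hn)
    · exact fun x w hx hw => ⟨h.hnone hw hx.1, h.bex hw hx.2⟩
  · apply h.cnt_le
    · rintro x ⟨-, hb⟩
      obtain ⟨y, hy⟩ := hb 1
      exact Or.inr ⟨y, pw_one.1 hy⟩
    · exact fun x w hx hw => ⟨h.hnone hw hx.1, fun n => h.bex hw (hx.2 n)⟩

end

end Pool.Agent.Q302.CC
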